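import Pool.Agent.Lib_helper63.G56.Conj
import Pool.Agent.Lib_helper11.GC45.R5
import Pool.Agent.Lib_helper63.FS.Asm
import Pool.Agent.Lib_helper25.G56.M1K
import Pool.Agent.Lib_helper5.G56.Wc

/-! # Assembly for `5 < p < 6`: the inequality for strict pairs from the analytic blocks -/

set_option autoImplicit false

open scoped BigOperators ComplexOrder Kronecker MatrixOrder
open MeasureTheory Set Matrix

namespace Pool.Agent.RC.G56

variable {ι κ : Type} [Fintype ι] [DecidableEq ι] [Fintype κ] [DecidableEq κ]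

/-- the weight `v ^ (3 - p) / ((1 + v) ^ 3 (1 + 2 v))` -/
noncomputable def wt (p v : ℝ) : ℝ := v ^ (3 - p) * (((1 + v) ^ 3)⁻¹ * (1 + 2 * v)⁻¹)

/-- `|sin (π p)| / π` -/
noncomputable def cc (p : ℝ) : ℝ := -Real.sin (Real.pi * p) / Real.pi

/-- the representation of `G` at the exponent `p` -/
def Rep (p : ℝ) : Prop :=
  ∀ {ι : Type} [Fintype ι] [DecidableEq ι] {a : ι → ℝ}, (∀ i, 0 < a i) →
    ∀ {D : Matrix ι ι ℂ}, IsPair (dg a) D →
    IntegrableOn (fun v : ℝ => wt p v *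
      (tau p (dg a) D v - tau p (dg a) D 0 + eta p (dg a) D 0 * v)) (Ioi 0) ∧
    G p (dg a) D = p * (p - 1) / 2 * REP.m1 p a D +
      (2 ^ (p - 1) - 1 - p * (p - 1) / 2) * tau p (dg a) D 0 +
      (2 ^ (p - 2) + p - 2 - p * (p - 1) / 2) * eta p (dg a) D 0 +
      cc p * ∫ v in Ioi (0 : ℝ), wt p v *
        (tau p (dg a) D v - tau p (dg a) D 0 + eta p (dg a) D 0 * v)

/-- the Taylor bound of second order together with the bound for the second moment -/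
def Bone (p : ℝ) : Prop :=
  ∀ {ι : Type} [Fintype ι] [DecidableEq ι] {a : ι → ℝ}, (∀ i, 0 < a i) →
    ∀ {D : Matrix ι ι ℂ}, IsPair (dg a) D → ∃ c2 : ℝ, 0 ≤ c2 ∧
    (∀ z : ℝ, 0 ≤ z → tau p (dg a) D z ≤
      tau p (dg a) D 0 - eta p (dg a) D 0 * z + c2 * z ^ 2) ∧
    tau p (dg a) D 0 + (p - 2) / p * eta p (dg a) D 0 +
      (p - 2) * (p - 3) / (2 * p * (p - 1)) * (2 * c2) ≤ REP.m1 p a D

/-- the values at `0` of the tensor pair -/
def Zero (p : ℝ) : Prop :=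
  ∀ {ι κ : Type} [Fintype ι] [DecidableEq ι] [Fintype κ] [DecidableEq κ]
    {A D : Matrix ι ι ℂ} {A' D' : Matrix κ κ ℂ}, IsPair A D → IsPair A' D' →
    tau p (A ⊗ₖ A') (D ⊗ₖ D') 0 = tau p A D 0 * tau p A' D' 0 ∧
    eta p (A ⊗ₖ A') (D ⊗ₖ D') 0 = tau p A D 0 * eta p A' D' 0 + tau p A' D' 0 * eta p A D 0 +
      eta p A D 0 * eta p A' D' 0 / p

omit [Fintype ι] in
theorem dg_pos {a : ι → ℝ} (h : (dg a).PosDef) (i : ι) : 0 < a i := by
  have h1 := (Matrix.posDef_diagonal_iff).1 h i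
  exact_mod_cast h1

omit [Fintype ι] [Fintype κ] in
theorem dg_kron (a : ι → ℝ) (b : κ → ℝ) :
    dg a ⊗ₖ dg b = dg (fun x : ι × κ => a x.1 * b x.2) := by
  unfold dg
  rw [diagonal_kronecker_diagonal]
  congr 1
  ext x
  push_cast
  rfl

theorem cc_nonneg {p : ℝ} (h5 : 5 < p) (h6 : p < 6) : 0 ≤ cc p := by
  have hpi := Real.pi_pos
  have e : Real.sin (Real.pi * p) = Real.sin (Real.pi * p - ((3 : ℕ) : ℝ) * (2 * Real.pi)) :=
    (Real.sin_sub_nat_mul_two_pi _ _).symm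
  have h1 : Real.sin (Real.pi * p - ((3 : ℕ) : ℝ) * (2 * Real.pi)) ≤ 0 := by
    apply Real.sin_nonpos_of_nonpos_of_neg_pi_le
    · push_cast
      nlinarith
    · push_cast
      nlinarith
  unfold cc
  apply div_nonneg _ hpi.le
  linarith

theorem wt_nonneg (p : ℝ) {v : ℝ} (hv : 0 < v) : 0 ≤ wt p v := by
  unfold wt
  positivity

theorem wt_moment {p : ℝ} (h5 : 5 < p) (h6 : p < 6) :
    IntegrableOn (fun z => wt p z * z ^ 2) (Ioi 0) ∧
    cc p * ∫ z in Ioi (0 : ℝ), wt p z * z ^ 2 = 2 ^ (p - 3) + 2 * p - 4 - p * (p - 1) / 2 := by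
  have h := Pool.Agent.Lib_helper5.R56.ww_moment h5 h6
  have e : (fun z : ℝ => wt p z * z ^ 2) = fun z => Pool.Agent.Lib_helper5.R56.ww p z * z ^ 2 := by
    funext z
    unfold wt Pool.Agent.Lib_helper5.R56.ww
    rw [div_eq_mul_inv, mul_inv]
  rw [e]
  exact h

/-- the inequality for strict pairs with diagonal `A` -/
theorem strict_dg {p : ℝ} (h5 : 5 < p) (h6 : p < 6) (hR : Rep p) (hB : Bone p) (hZ : Zero p)
    (a : ι → ℝ) (D₁ : Matrix ι ι ℂ) (b : κ → ℝ) (D₂ : Matrix κ κ ℂ) (h₁ : SPair (dg a) D₁)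
    (h₂ : SPair (dg b) D₂) : G p (dg a) D₁ * G p (dg b) D₂ ≤
      (2 ^ (p - 1) - 1) * G p (dg a ⊗ₖ dg b) (D₁ ⊗ₖ D₂) := by
  have hp1 : 1 < p := by linarith
  have ha := fun i => dg_pos h₁.pos i
  have hb := fun k => dg_pos h₂.pos k
  have hab : ∀ x : ι × κ, 0 < a x.1 * b x.2 := fun x => mul_pos (ha _) (hb _)
  have mk : ∀ {ι : Type} [Fintype ι] [DecidableEq ι] {a : ι → ℝ} (_ : ∀ i, 0 < a i)
      {D : Matrix ι ι ℂ} (_ : IsPair (dg a) D), ∃ d : FS.PairData p (wt p),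
      d.m = REP.m1 p a D ∧ d.t0 = tau p (dg a) D 0 ∧ d.e = eta p (dg a) D 0 ∧
      d.E = tau p (dg a) D ∧ d.gam = eta p (dg a) D := by
    intro ι _ _ a ha D h
    obtain ⟨c2, c0, c1, c3⟩ := hB ha h
    exact ⟨{
      m := REP.m1 p a D
      t0 := tau p (dg a) D 0
      e := eta p (dg a) D 0
      t2 := 2 * c2
      E := tau p (dg a) D
      gam := eta p (dg a) D
      t0_nonneg := tau_nonneg _ _ _ _
      e_nonneg := eta_nonneg (by linarith) h _
      t2_nonneg := by linarith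
      gam_nonneg := fun z _ => eta_nonneg (by linarith) h z
      gam_le := fun z hz => eta_antitone hp1 h hz.le
      mul_gam_le := fun z _ => mul_eta_le hp1 h z
      r_nonneg := fun z _ => by
        have := tau_tangent hp1 h 0 z
        linarith
      r_le := fun z hz => by
        have := c1 z hz.le
        linarith
      int := (hR ha h).1
      m_ge := by linarith }, rfl, rfl, rfl, rfl, rfl⟩
  obtain ⟨d, dm, dt, de, dE, dg'⟩ := mk ha h₁.isPair
  obtain ⟨d', dm', dt', de', dE', dg''⟩ := mk hb h₂.isPair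
  have hVW := h₁.isPair.kron h₂.isPair
  obtain ⟨z1, z2⟩ := hZ h₁.isPair h₂.isPair
  have hK := kStar (show 2 < p by linarith) ι κ (dg a) D₁ (dg b) D₂ h₁ h₂
  rw [dg_kron] at hVW z1 z2 hK ⊢
  obtain ⟨r1, r2⟩ := hR hab hVW
  obtain ⟨w1, w2⟩ := wt_moment h5 h6
  have hG1 : G p (dg a) D₁ = d.G (cc p) := by
    rw [(hR ha h₁.isPair).2]
    unfold FS.PairData.G
    rw [dm, dt, de, dE]
  have hG2 : G p (dg b) D₂ = d'.G (cc p) := by
    rw [(hR hb h₂.isPair).2]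
    unfold FS.PairData.G
    rw [dm', dt', de', dE']
  rw [hG1, hG2]
  refine FS.fs_assembly h5.le h6.le (cc_nonneg h5 h6) (fun z hz => wt_nonneg p hz) w1 w2 d d'
    (M := REP.m1 p (fun x : ι × κ => a x.1 * b x.2) (D₁ ⊗ₖ D₂)) ?_ (by rw [dt, dt']; exact z1)
    (by rw [dt, dt', de, de']; exact z2) (fun z hz => ?_) r1 r2
  · rw [dm, dm']
    exact M1K.m1_kron (by linarith) ha hb D₁ h₂.isPair.hermD
  · rw [dE, dE', dg', dg'']
    exact hK z hz

/-- the inequality for all strict pairs -/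
theorem strict {p : ℝ} (h5 : 5 < p) (h6 : p < 6) (hR : Rep p) (hB : Bone p) (hZ : Zero p) :
    Pool.Agent.Lib_helper98.GC34.Strict p :=
  strict_of_dg fun a D₁ b D₂ h₁ h₂ => strict_dg h5 h6 hR hB hZ a D₁ b D₂ h₁ h₂

end Pool.Agent.RC.G56
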