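import Pool.Agent.Lib_helper29.MOD.Main23
import Pool.Agent.Lib_helper98.GC34.Final

/-! # Reduction to diagonal `A` -/

set_option autoImplicit false

open scoped BigOperators ComplexOrder Kronecker MatrixOrder
open MeasureTheory Set Matrix

namespace Pool.Agent.RC.G56

open SER

variable {ι κ : Type} [Fintype ι] [DecidableEq ι] [Fintype κ] [DecidableEq κ]

theorem trF_conj_gen (f : ℝ → ℝ) {U M : Matrix ι ι ℂ} (hU : Uᴴ * U = 1) (hM : M.IsHermitian) :
    trF f (U * M * Uᴴ) = trF f M := by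
  obtain ⟨W, h1, h2, h3⟩ := exists_diag_eig hM
  have e1 : M = W * Matrix.diagonal (fun i => (hM.eigenvalues i : ℂ)) * Wᴴ := by
    rw [← h3]
    calc M = (W * Wᴴ) * M * (W * Wᴴ) := by rw [h1]; simp
      _ = _ := by noncomm_ring
  have e2 : trF f M = ∑ i, f (hM.eigenvalues i) := by
    unfold trF
    rw [dif_pos hM]
  have hUW : (U * W)ᴴ * (U * W) = 1 := by
    rw [Matrix.conjTranspose_mul]
    calc Wᴴ * Uᴴ * (U * W) = Wᴴ * (Uᴴ * U) * W := by noncomm_ring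
      _ = 1 := by rw [hU, Matrix.mul_one, h2]
  have e3 : U * M * Uᴴ = (U * W) * Matrix.diagonal (fun i => (hM.eigenvalues i : ℂ)) * (U * W)ᴴ := by
    rw [Matrix.conjTranspose_mul]
    conv_lhs => rw [e1]
    noncomm_ring
  rw [e2, e3, TRF.trF_conj f hUW]

theorem G_conj (p : ℝ) {U A D : Matrix ι ι ℂ} (hU : Uᴴ * U = 1) (hA : A.IsHermitian)
    (hD : D.IsHermitian) : G p (U * A * Uᴴ) (U * D * Uᴴ) = G p A D := by
  unfold G
  have e1 : U * A * Uᴴ + U * D * Uᴴ = U * (A + D) * Uᴴ := by noncomm_ring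
  have e2 : U * A * Uᴴ - U * D * Uᴴ = U * (A - D) * Uᴴ := by noncomm_ring
  rw [e1, e2, trF_conj_gen _ hU (hA.add hD), trF_conj_gen _ hU (hA.sub hD), trF_conj_gen _ hU hA]

theorem kron_conj (U A : Matrix ι ι ℂ) (V B : Matrix κ κ ℂ) :
    (U * A * Uᴴ) ⊗ₖ (V * B * Vᴴ) = (U ⊗ₖ V) * (A ⊗ₖ B) * (U ⊗ₖ V)ᴴ := by
  rw [Matrix.conjTranspose_kronecker, ← Matrix.mul_kronecker_mul, ← Matrix.mul_kronecker_mul]

theorem kron_unitary {U : Matrix ι ι ℂ} {V : Matrix κ κ ℂ} (hU : Uᴴ * U = 1) (hV : Vᴴ * V = 1) :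
    (U ⊗ₖ V)ᴴ * (U ⊗ₖ V) = 1 := by
  rw [Matrix.conjTranspose_kronecker, ← Matrix.mul_kronecker_mul, hU, hV, Matrix.one_kronecker_one]

/-- the inequality for strict pairs with diagonal `A` implies the inequality for all strict pairs -/
theorem strict_of_dg {p : ℝ}
    (hS : ∀ {ι κ : Type} [Fintype ι] [DecidableEq ι] [Fintype κ] [DecidableEq κ]
      (a : ι → ℝ) (D₁ : Matrix ι ι ℂ) (b : κ → ℝ) (D₂ : Matrix κ κ ℂ), SPair (dg a) D₁ →
      SPair (dg b) D₂ → G p (dg a) D₁ * G p (dg b) D₂ ≤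
        (2 ^ (p - 1) - 1) * G p (dg a ⊗ₖ dg b) (D₁ ⊗ₖ D₂)) :
    Pool.Agent.Lib_helper98.GC34.Strict p := by
  intro ι κ _ _ _ _ A₁ D₁ A₂ D₂ h1 h2 h3 h4
  have red : ∀ {ι : Type} [Fintype ι] [DecidableEq ι] (A D : Matrix ι ι ℂ), (A - D).PosDef →
      (A + D).PosDef → ∃ (U : Matrix ι ι ℂ) (a : ι → ℝ) (D' : Matrix ι ι ℂ), Uᴴ * U = 1 ∧
        A = U * dg a * Uᴴ ∧ D = U * D' * Uᴴ ∧ SPair (dg a) D' := by
    intro ι _ _ A D hs ha
    have h2A : (A - D) + (A + D) = (2 : ℝ) • A := by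
      rw [two_smul]
      abel
    have hA2 : ((2 : ℝ) • A).PosDef := h2A ▸ hs.add ha
    have hA : A.PosDef := by
      have e : A = (2⁻¹ : ℝ) • ((2 : ℝ) • A) := by
        rw [smul_smul, inv_mul_cancel₀ (by norm_num), one_smul]
      rw [e]
      exact hA2.smul (by norm_num)
    obtain ⟨U, u1, u2, u3⟩ := exists_diag_eig hA.1
    have eA : A = U * dg hA.1.eigenvalues * Uᴴ := by
      unfold dg
      rw [← u3]
      calc A = (U * Uᴴ) * A * (U * Uᴴ) := by rw [u1]; simp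
        _ = _ := by noncomm_ring
    have eD : D = U * (Uᴴ * D * U) * Uᴴ := by
      calc D = (U * Uᴴ) * D * (U * Uᴴ) := by rw [u1]; simp
        _ = _ := by noncomm_ring
    have inj : ∀ X : Matrix ι ι ℂ, X.PosDef → (Uᴴ * X * U).PosDef := by
      intro X hX
      have hinj : Function.Injective U.mulVec := by
        intro x y hxy
        have h5 := congrArg (Uᴴ.mulVec) hxy
        simpa [Matrix.mulVec_mulVec, u2] using h5
      exact hX.conjTranspose_mul_mul_same hinj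
    refine ⟨U, hA.1.eigenvalues, Uᴴ * D * U, u2, eA, eD, ?_⟩
    have e0 : dg hA.1.eigenvalues = Uᴴ * A * U := by
      unfold dg
      rw [u3]
    refine ⟨?_, ?_, ?_⟩
    · rw [e0]
      exact inj A hA
    · have : dg hA.1.eigenvalues - Uᴴ * D * U = Uᴴ * (A - D) * U := by
        rw [e0]
        noncomm_ring
      rw [this]
      exact inj _ hs
    · have : dg hA.1.eigenvalues + Uᴴ * D * U = Uᴴ * (A + D) * U := by
        rw [e0]
        noncomm_ring
      rw [this]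
      exact inj _ ha
  obtain ⟨U, a, D₁', hU, rfl, rfl, hp1⟩ := red A₁ D₁ h1 h2
  obtain ⟨V, b, D₂', hV, rfl, rfl, hp2⟩ := red A₂ D₂ h3 h4
  rw [kron_conj, kron_conj, G_conj p hU hp1.pos.1 hp1.isPair.hermD,
    G_conj p hV hp2.pos.1 hp2.isPair.hermD,
    G_conj p (kron_unitary hU hV) (hp1.isPair.kron hp2.isPair).hermA
      (hp1.isPair.kron hp2.isPair).hermD]
  exact hS a D₁' b D₂' hp1 hp2

end Pool.Agent.RC.G56

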