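import Pool.Agent.Lib_helper63.G56.Zero
import Pool.Agent.Lib_helper11.GC56.Rep56
import Pool.Agent.Lib_helper77.GC56.B56
import Pool.Agent.Lib_helper30.TN.Two

/-! # The inequality for all strict pairs, `5 < p < 6` -/

set_option autoImplicit false

open scoped BigOperators ComplexOrder Kronecker MatrixOrder
open MeasureTheory Set Matrix

namespace Pool.Agent.RC.G56

theorem rep {p : ℝ} (h5 : 5 < p) (h6 : p < 6) : Rep p := fun ha _ h =>
  REP.rep56 h5 h6 ha h

theorem bone {p : ℝ} (h5 : 5 < p) (h6 : p < 6) : Bone p := fun {ι} _ _ {a} ha D h => by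
  obtain ⟨c2, c3, C, k2, k3, kC, kup, kloc⟩ :=
    Pool.Agent.Lib_helper30.TN.tau_tone6 (show 4 < p by linarith) h.sub h.add
  exact ⟨c2, k2, fun z hz => (kup z hz).1,
    TR6.b56 h5 h6 h k3 kC one_pos (fun z hz => (kup z hz).2.1) kloc⟩

/-- the inequality for all strict pairs and every `5 < p < 6` -/
theorem strict56 {p : ℝ} (h5 : 5 < p) (h6 : p < 6) : Pool.Agent.Lib_helper98.GC34.Strict p :=
  strict h5 h6 (rep h5 h6) (bone h5 h6) (zero (by linarith))

end Pool.Agent.RC.G56
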