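import Pool.Agent.Lib_helper63.G56.Asm
import Pool.Agent.Lib_helper51.FS.VW

set_option autoImplicit false

open scoped BigOperators ComplexOrder Kronecker MatrixOrder
open MeasureTheory Set Matrix

namespace Pool.Agent.RC.G56

theorem zero {p : ℝ} (hp : 1 < p) : Zero p := fun h h' =>
  ⟨Pool.Agent.Lib_helper51.FS.tau_kron_zero (by linarith) _ _ h.hermD h'.hermD,
    Pool.Agent.Lib_helper51.FS.eta_kron_zero hp h.hermA h.hermD h'.hermD⟩

end Pool.Agent.RC.G56
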